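import Pool.Agent.TFJ.Stmts

set_option autoImplicit false

namespace Pool.Agent.TFJ.H89

open scoped BigOperators

theorem exw : ExwStmt := by
  intro S _ ι _ x P
  induction P with
  | zero =>
    rw [pow_zero, Fintype.sum_unique]
    simp [wprod]
  | succ P ih =>
    rw [pow_succ', ih, Finset.sum_mul_sum]
    rw [← (Fin.consEquiv (fun _ : Fin (P + 1) => ι)).sum_comp
      (fun w : Fin (P + 1) → ι => wprod fun j => x (w j))]
    rw [Fintype.sum_prod_type]
    refine Finset.sum_congr rfl fun i _ => Finset.sum_congr rfl fun w _ => ?_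
    unfold wprod
    rw [List.ofFn_succ, List.prod_cons]
    simp [Fin.consEquiv]

end Pool.Agent.TFJ.H89
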